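import Mathlib
import Pool.Agent.H12.Specht

namespace Pool.Agent.Results.MP_f9b6b5_al.Counter

open MvPolynomial

variable {k : Type} [Field k] {n : ℕ}

/-- homogeneous ideal: closed under taking homogeneous components -/
def Homog (I : Ideal (MvPolynomial (Fin n) k)) : Prop :=
  ∀ f ∈ I, ∀ d, homogeneousComponent d f ∈ I

/-- symmetric ideal: stable under every permutation of the variables -/
def Symm (I : Ideal (MvPolynomial (Fin n) k)) : Prop :=
  ∀ σ : Equiv.Perm (Fin n), ∀ f ∈ I, rename σ f ∈ I

/-- nonzero and invariant up to scalars -/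
def KSymm (f : MvPolynomial (Fin n) k) : Prop :=
  f ≠ 0 ∧ ∀ σ : Equiv.Perm (Fin n), ∃ c : k, rename σ f = c • f

/-- minimal generating set, in either sense: an irredundant set of homogeneous generators, or a
generating set of least cardinality -/
def MinGen (S : Set (MvPolynomial (Fin n) k)) (I : Ideal (MvPolynomial (Fin n) k)) : Prop :=
  Ideal.span S = I ∧
    (((∀ f ∈ S, ∃ d, f.IsHomogeneous d) ∧ ∀ T, T ⊂ S → Ideal.span T ≠ I) ∨
      ∀ T, Ideal.span T = I → S.encard ≤ T.encard)

/-- a monomial (with a nonzero coefficient) or a binomial -/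
def MonBin (f : MvPolynomial (Fin n) k) : Prop :=
  (∃ m a, a ≠ 0 ∧ f = monomial m a) ∨
    ∃ m₁ m₂ a b, m₁ ≠ m₂ ∧ a ≠ 0 ∧ b ≠ 0 ∧ f = monomial m₁ a + monomial m₂ b

/-- the dimension of the degree `d` part of `I` -/
noncomputable def hilb (I : Ideal (MvPolynomial (Fin n) k)) (d : ℕ) : ℕ :=
  Module.finrank k ↥(I.restrictScalars k ⊓ homogeneousSubmodule (Fin n) k d)

open Pool.Agent.H12.Specht in
theorem result (k : Type) [Field k] [CharZero k] :
    ∃ (n : ℕ) (I : Ideal (MvPolynomial (Fin n) k)), Homog I ∧ Symm I ∧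
      (∀ S, MinGen S I → ∀ f ∈ S, ¬ KSymm f) ∧
      ∀ J : Ideal (MvPolynomial (Fin n) k), Homog J → Symm J →
        (∃ T, (∀ t ∈ T, MonBin t) ∧ Ideal.span T = J) → ∃ d, hilb I d ≠ hilb J d := by
  have fd : ∀ (J : Ideal (P k)) d,
      FiniteDimensional k ↥(J.restrictScalars k ⊓ homogeneousSubmodule (Fin 4) k d) := fun J d => by
    have : FiniteDimensional k (homogeneousSubmodule (Fin 4) k d) :=
      Module.Finite.iff_fg.2 (homogeneousSubmodule_fg _ _ d)
    exact Submodule.finiteDimensional_inf_right _ _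
  have uI : (u : P k) ∈ I := Ideal.subset_span (by simp)
  have vI : (v : P k) ∈ I := Ideal.subset_span (by simp)
  refine ⟨4, I, ?_, I_symm, ?_, ?_⟩
  · intro f hf d
    let _ := @gradedAlgebra (Fin 4) k _
    refine homogeneousComponent_mem_of_mem (Ideal.homogeneous_span _ _ ?_) hf d
    rintro s (rfl | rfl)
    exacts [⟨2, hu⟩, ⟨2, hv⟩]
  · rintro S ⟨h1, h2⟩ g hg ⟨-, h3⟩
    have hS : ∀ s ∈ S, s ∈ (I : Ideal (P k)) := fun s hs => h1 ▸ Ideal.subset_span hs
    have g0 := ksymm g (hS g hg) h3
    have key : ∀ p ∈ (I : Ideal (P k)), p.IsHomogeneous 2 →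
        p ∈ Submodule.span k (homogeneousComponent 2 '' S) := fun p hp hp2 => by
      have := (span_low S (fun s hs => (I_low s (hS s hs)).1) p (h1 ▸ hp)).2
      rwa [homogeneousComponent_eq_self hp2] at this
    rcases h2 with ⟨h4, h5⟩ | h4
    · refine h5 (S \ {g}) (Set.sdiff_singleton_ssubset.2 hg) (le_antisymm
        (h1 ▸ Ideal.span_mono Set.sdiff_subset) ?_)
      have : Submodule.span k (homogeneousComponent 2 '' S) ≤
          (Ideal.span (S \ {g})).restrictScalars k := by
        rw [Submodule.span_le]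
        rintro _ ⟨s, hs, rfl⟩
        by_cases e : s = g
        · rw [e, g0]; exact zero_mem _
        · obtain ⟨d, hd⟩ := h4 s hs
          rw [homogeneousComponent_of_mem hd]
          split_ifs
          · exact Ideal.subset_span ⟨hs, e⟩
          · exact zero_mem _
      rw [I, Ideal.span_le]
      rintro s (rfl | rfl)
      exacts [this (key _ uI hu), this (key _ vI hv)]
    · have h5 : S.encard ≤ 2 := (h4 {u, v} rfl).trans
        ((Set.encard_insert_le _ _).trans (by simp [one_add_one_eq_two]))
      have h6 : (S \ {g}).encard ≤ 1 := by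
        rw [Set.encard_sdiff_singleton_of_mem hg]
        exact tsub_le_iff_right.2 (by rwa [one_add_one_eq_two])
      obtain ⟨h, hh⟩ : ∃ h, S \ {g} ⊆ {h} := by
        rcases Set.encard_le_one_iff_eq.1 h6 with e | ⟨x, e⟩
        · exact ⟨0, by simp [e]⟩
        · exact ⟨x, e.le⟩
      have : Submodule.span k (homogeneousComponent 2 '' S) ≤
          Submodule.span k {homogeneousComponent 2 h} := by
        rw [Submodule.span_le]
        rintro _ ⟨s, hs, rfl⟩
        by_cases e : s = g
        · rw [e, g0]; exact zero_mem _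
        · rw [show s = h from hh ⟨hs, e⟩]
          exact Submodule.subset_span rfl
      exact not_line _ ⟨this (key _ uI hu), this (key _ vI hv)⟩
  · rintro J hJ sJ ⟨T, hT, rfl⟩
    by_contra! H
    have low : ∀ t ∈ T, Low t := by
      intro t ht m hm
      have h0 : hilb (I : Ideal (P k)) m.degree = 0 := by
        have := fd I m.degree
        rw [hilb, Submodule.finrank_eq_zero, eq_bot_iff]
        rintro p ⟨p1, p2⟩
        ext m'
        by_cases e : m'.degree = m.degree
        · exact (I_low p p1).1 m' (by omega)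
        · exact IsHomogeneous.coeff_eq_zero p2 e
      have := fd (Ideal.span T) m.degree
      rw [H, hilb, Submodule.finrank_eq_zero, eq_bot_iff] at h0
      have h1 : homogeneousComponent m.degree t = 0 :=
        h0 ⟨hJ t (Ideal.subset_span ht) _, homogeneousComponent_mem _ _⟩
      have := congrArg (coeff m) h1
      simpa [coeff_homogeneousComponent] using this
    have u0 : (u : P k) ≠ 0 := fun e => by
      have := congrArg (eval ![1, 0, 1, 0]) e
      simp [u] at this
    obtain ⟨t, ht, t0⟩ : ∃ t ∈ T, homogeneousComponent 2 t ≠ 0 := by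
      by_contra! h
      have h0 : hilb (Ideal.span T) 2 = 0 := by
        have := fd (Ideal.span T) 2
        rw [hilb, Submodule.finrank_eq_zero, eq_bot_iff]
        rintro p ⟨p1, p2⟩
        have := (span_low T low p p1).2
        rw [homogeneousComponent_eq_self p2] at this
        refine (Submodule.span_le.2 ?_) this
        rintro _ ⟨s, hs, rfl⟩
        exact h s hs
      have := fd I 2
      rw [← H, hilb, Submodule.finrank_eq_zero, eq_bot_iff] at h0
      exact u0 (h0 ⟨uI, hu⟩)
    obtain ⟨m₁, m₂, hm⟩ : ∃ m₁ m₂, ∀ m, coeff m t ≠ 0 → m = m₁ ∨ m = m₂ := by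
      rcases hT t ht with ⟨m₁, a, -, rfl⟩ | ⟨m₁, m₂, a, b, -, -, -, rfl⟩
      · refine ⟨m₁, m₁, fun m h => ?_⟩
        by_contra! h'
        simp [coeff_monomial, h'.1.symm] at h
      · refine ⟨m₁, m₂, fun m h => ?_⟩
        by_contra! h'
        simp [coeff_monomial, h'.1.symm, h'.2.symm] at h
    have q2 := homogeneousComponent_isHomogeneous 2 t
    have qJ := hJ t (Ideal.subset_span ht) 2
    have hm' : ∀ m, coeff m (homogeneousComponent 2 t) ≠ 0 → m.degree = 2 ∧ (m = m₁ ∨ m = m₂) := by
      intro m h
      rw [coeff_homogeneousComponent] at h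
      split_ifs at h with e
      · exact ⟨e, hm m h⟩
      · exact absurd rfl h
    generalize homogeneousComponent 2 t = q at t0 q2 qJ hm'
    obtain ⟨σ, τ, li⟩ : ∃ σ τ : Equiv.Perm (Fin 4),
        LinearIndependent k ![q, rename σ q, rename τ q] := by
      obtain ⟨m, h⟩ := ne_zero_iff.1 t0
      by_cases e : ∃ m', coeff m' q ≠ 0 ∧ m' ≠ m
      · obtain ⟨m', h', e⟩ := e
        refine three q m m' (hm' m h).1 (hm' m' h').1 h fun x hx => ?_
        have := (hm' m h).2
        have := (hm' m' h').2
        have := (hm' x hx).2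
        grind
      · push Not at e
        exact three q m m (hm' m h).1 (hm' m h).1 h fun x hx => Or.inl (e x hx)
    have l3 : 3 ≤ hilb (Ideal.span T) 2 := by
      have := fd (Ideal.span T) 2
      have h1 := finrank_span_eq_card li
      rw [Fintype.card_fin] at h1
      refine h1.ge.trans <| Submodule.finrank_mono (Submodule.span_le.2 ?_)
      rintro _ ⟨i, rfl⟩
      fin_cases i
      exacts [⟨qJ, q2⟩, ⟨sJ _ _ qJ, q2.rename_isHomogeneous⟩, ⟨sJ _ _ qJ, q2.rename_isHomogeneous⟩]
    have l2 : hilb (I : Ideal (P k)) 2 ≤ 2 := by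
      classical
      have h1 : (I : Ideal (P k)).restrictScalars k ⊓ homogeneousSubmodule (Fin 4) k 2 ≤
          Submodule.span k (({u, v} : Finset (P k)) : Set (P k)) := by
        rintro p ⟨p1, p2⟩
        obtain ⟨a, b, e⟩ := (I_low p p1).2
        rw [homogeneousComponent_eq_self p2] at e
        rw [Finset.coe_pair, Submodule.mem_span_pair]
        exact ⟨a, b, e⟩
      exact (Submodule.finrank_mono h1).trans ((finrank_span_finset_le_card _).trans
        Finset.card_le_two)
    have := H 2
    omega

end Pool.Agent.Results.MP_f9b6b5_al.Counter
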